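import Pool.Agent.K3h59.LD.Field
import Pool.Agent.K3h59.LD.Reduce

set_option autoImplicit false

/-!
# Lehmer's problem for decomposable polynomials and for norms with partly rational coefficients

Let `φ = (1 + √5) / 2`, and let `M` be the Mahler measure.

A theorem of Schinzel (1973) says that `M(f) ≥ φ ^ (m / 2)` if `f` is the norm of a monic
polynomial `P`, over the ring of integers of a totally real or CM field of degree `m`, which is not
reciprocal (`P(0) ≠ 0` and `P(X) ≠ P(0) X ^ d conj(P)(1 / X)`, `d = deg P`). We prove this for
polynomials `P` over the ring of integers of an ARBITRARY number field `L` of degree `m` if only some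
of the leading coefficients of `P` are rational (or totally real or CM numbers) and the reciprocity
is violated by one of these coefficients: for some `s ≤ d` the coefficients of
`X ^ (d - 1), …, X ^ (d - s)` are such numbers and the coefficient of `X ^ s` is not `P(0)` times the
complex conjugate of the coefficient of `X ^ (d - s)`. For instance, for `s = 1 < d`, if `α` is an
algebraic integer, `L` is a subfield of `ℚ(α)` of degree `m`, the trace of `α` over `L` is a rational
number, and the trace of `1 / α` over `L` is different from it, then `M(α) ≥ φ ^ (m / 2)`.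

If `f = g (h (X))` is a composition then `f` is the norm of `h(X) - β`, where `β` is a zero of `g`, and
all coefficients of this polynomial but one are rational. So `M(f) ≥ φ ^ (deg g / 2)` for all
decomposable polynomials `f` except for the trivial cases `h = a X ^ d + b` (where
`f(X) = F(X ^ d)` and `M(f) = M(F)`) and `g(q) = 0` for a rational `q`. Hence Lehmer's problem is
equivalent to its special case of the monic irreducible polynomials which are not decomposable.

Proof. Let `U` be the Mahler measure and `l = |P(0)| / U` for one conjugate of `P`. By the method of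
Schur, Smyth and Schinzel (`Pool.Agent.R701.UG.rel_ineq`) the first nonzero coefficient `r` of
`P(X) - P(0) X ^ d conj(P)(1 / X)` is at most `U ^ 2 - l ^ 2` in absolute value. The products over
all embeddings of `|P(0)|` and of `|r|` are at least `1`, since `r` is an algebraic integer of `L`;
this is the point where the leading coefficients must be rational or CM numbers. The theorem follows
from `√5 log φ + log (x - y) + (φ - 1) log (x y) ≤ √5 log x` for `x = U ^ 2`, `y = l ^ 2`.
-/

open Polynomial NumberField
open scoped ComplexConjugate

namespace Pool.Agent.Results.MP_7ab245_nt.Decomposable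

universe u

/-- The integer polynomial `f` is decomposable over `ℚ`: it is a composition `g (h (X))` of two
rational polynomials of degree at least two. -/
def Decomposable (f : ℤ[X]) : Prop :=
  ∃ g h : ℚ[X], 2 ≤ g.natDegree ∧ 2 ≤ h.natDegree ∧ f.map (Int.castRingHom ℚ) = g.comp h

/-- The Mahler measure of an integer polynomial. -/
noncomputable def M (f : ℤ[X]) : ℝ := (f.map (Int.castRingHom ℂ)).mahlerMeasure

/-- (1) Let `L` be a number field and let `P` be a monic polynomial with `P(0) ≠ 0`, of degree `d`,
over its ring of integers. Let `1 ≤ s ≤ d`. Suppose that for `i = 1, …, s` the complex conjugates of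
the conjugates of the coefficient of `X ^ (d - i)` are the conjugates of some `b i` (so this
coefficient is a totally real or CM number; for a rational number `b i` is equal to it), and that the
coefficient of `X ^ s` is different from `P(0) b s`. If the integer polynomial `f` is the norm of `P`,
then `M(f) ^ 2 ≥ φ ^ [L : ℚ]`.

(2) Let `f` be a monic integer polynomial, `f(X) = g(h(X))` with rational polynomials `g`, `h`, `h` not
constant, and suppose that `g` has no rational zero (this holds if `f` is irreducible and `g` has
degree at least two). Then `h(X) = a X ^ d + b` or `M(f) ^ 2 ≥ φ ^ deg g`.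

(3) If `M(f) ≥ μ` for all monic irreducible integer polynomials `f` with `M(f) > 1` which are not
decomposable over `ℚ`, then `M(f) ≥ min (μ, φ)` for all integer polynomials `f` with `M(f) > 1`. -/
theorem result :
    (∀ (L : Type u) [Field L] [NumberField L] (P : (𝓞 L)[X]) (s : ℕ) (b : ℕ → 𝓞 L) (f : ℤ[X]),
      P.Monic → P.coeff 0 ≠ 0 → 1 ≤ s → s ≤ P.natDegree →
      (∀ i, 1 ≤ i → i ≤ s → ∀ σ : L →+* ℂ,
        conj (σ (P.coeff (P.natDegree - i) : L)) = σ (b i : L)) →
      P.coeff s ≠ P.coeff 0 * b s →
      f.map (Int.castRingHom ℂ) = ∏ σ : L →+* ℂ, P.map (σ.comp (algebraMap (𝓞 L) L)) →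
      Real.goldenRatio ^ Module.finrank ℚ L ≤ M f ^ 2) ∧
    (∀ (f : ℤ[X]) (g h : ℚ[X]), f.Monic → f.map (Int.castRingHom ℚ) = g.comp h →
      1 ≤ h.natDegree → ((∀ q : ℚ, g.eval q ≠ 0) ∨ (Irreducible f ∧ 2 ≤ g.natDegree)) →
      (∃ a b : ℚ, h = C a * X ^ h.natDegree + C b) ∨
        Real.goldenRatio ^ g.natDegree ≤ M f ^ 2) ∧
    (∀ μ : ℝ, (∀ f : ℤ[X], f.Monic → Irreducible f → ¬ Decomposable f → 1 < M f → μ ≤ M f) →
      ∀ f : ℤ[X], 1 < M f → min μ Real.goldenRatio ≤ M f) := by
  refine ⟨?_, ?_, ?_⟩
  · intro L _ _ P s b f hP h0 hs hsd hb hne hf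
    have h1 := Pool.Agent.K3h59.LD.field_bound P hP h0 s b hs hsd hb hne
    refine h1.trans (le_of_eq ?_)
    rw [M, hf]
    congr 1
    have h3 := Polynomial.prod_mahlerMeasure_eq_mahlerMeasure_prod
      (Finset.univ.val.map fun σ : L →+* ℂ => P.map (σ.comp (algebraMap (𝓞 L) L)))
    rw [Multiset.map_map] at h3
    exact h3.symm
  · intro f g h hf hc hh hr
    rcases Pool.Agent.K3h59.LD.decomp_bound f hf g h hh hc hr with h1 | h1
    · exact Or.inl ⟨_, _, h1⟩
    · exact Or.inr h1
  · intro μ hμ f hM
    exact Pool.Agent.K3h59.LD.reduce μ (fun f h1 h2 h3 h4 => hμ f h2 h1 h3 h4) f hM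

end Pool.Agent.Results.MP_7ab245_nt.Decomposable
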