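import Mathlib
import Pool.Agent.K3h71.SP.Final

/-!
# Lehmer's problem for polynomials with few nonzero digits

Let `P, Q` be coprime complex polynomials of degree at most `m` such that `|P|²` and `|Q|²` are
linearly independent over `ℝ` on the unit circle.  We consider polynomials
`H = ∑_{j ∈ S} h_j P^j Q^(N-j)` with `|S| ≤ k` and digits `h_j ∈ ℂ[X]` of degree at most `m`; there
is no restriction on `N` and on the size of the digits.  Examples:
* `Q = 1`: polynomials with at most `k` nonzero digits in base `P`, where `P` is not a monomial;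
* `P = X - a`, `a ≠ 0`, `Q = 1`: at most `k` nonzero Taylor coefficients at `a`;
* `P = X² - a X + 1`, `Q = X`: `X^N g(X + 1/X)` where `g` has at most `k` nonzero Taylor
  coefficients at `a`;
* `P = X`, `Q = X - 1`: at most `k` nonzero coefficients in the Bernstein basis.

Integer polynomials whose zeros are zeros of `H` satisfy a Lehmer type bound that depends only on
`k` (logarithmically), not on the degree; the constant is uniform in `P, Q` for integer `P, Q`.

Proof: (1) The discriminant of an integer polynomial `f` with simple zeros and small Mahler measure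
bounds an energy of its zeros, and positive definiteness of the kernel `-log|1 - t z w̄|` shows that a
disc of radius `δ` around a point of the unit circle contains at most `O(δ deg f)` zeros.
(2) Near the unit circle the sets `{| log|P/Q| - s | ≤ η}` are contained in few small discs.
(3) A polynomial `G` with `k` terms satisfies `|g_j| ≤ 2^k M(G)` (from Mahler's inequality
`M(G') ≤ deg G · M(G)`), hence by Jensen's formula it has at most `4k/η` zeros in the annuli, at
logarithmic distance at least `η` from their boundaries, in which a given term dominates.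
(4) Polynomial digits are eliminated with a resultant.  So `deg f` is bounded by a power of `k`
times `1 + log M(f)`, and Dobrowolski's theorem applies.
-/

set_option autoImplicit false

open Polynomial

namespace Pool.Agent.Results.MP_7ab245_nt.FewDigits

/-- There is an absolute constant `c > 0` such that for coprime `P, Q ∈ ℂ[X]` of degree at most `m`
with `|P|²`, `|Q|²` linearly independent over `ℝ` on the unit circle there is `Λ ≥ 2`, with
`Λ ≤ (2 m B)^5` if `P, Q` have integer coefficients of absolute value at most `B`, such that for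
every nonzero `H = ∑_{j ∈ S} h_j P^j Q^(N-j)`, `|S| ≤ k`, `deg h_j ≤ m`, `S ⊆ {0, …, N}`:

* if `f ∈ ℤ[X]`, `f ≠ 0`, has only simple zeros and at least `θ deg f` of them are zeros of `H`,
  `0 < θ ≤ 1`, then `deg f ≤ (Λ k / θ)^(80 m²) (1 + log M(f))`, and if `f` is moreover irreducible
  with `log M(f) > 0`, then `log M(f) ≥ c / (m² log (Λ k / θ))³`;
* if `F ∈ ℤ[X]`, `log M(F) > 0` and all zeros of `F` are zeros of `H` (for instance `F = H` or
  `F ∣ H`), then `log M(F) ≥ c / (m² log (Λ k))³`. -/
theorem result : ∃ c : ℝ, 0 < c ∧ ∀ (m : ℕ) (P Q : ℂ[X]), 1 ≤ m → P.natDegree ≤ m →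
    Q.natDegree ≤ m → IsCoprime P Q →
    (∀ a b : ℝ, (∀ z : ℂ, ‖z‖ = 1 → a * ‖P.eval z‖ ^ 2 = b * ‖Q.eval z‖ ^ 2) → a = 0 ∧ b = 0) →
    ∃ Λ : ℝ, 2 ≤ Λ ∧
      (∀ (P₀ Q₀ : ℤ[X]) (B : ℕ), P = P₀.map (Int.castRingHom ℂ) → Q = Q₀.map (Int.castRingHom ℂ) →
        (∀ i, |P₀.coeff i| ≤ B ∧ |Q₀.coeff i| ≤ B) → Λ ≤ (2 * m * B) ^ 5) ∧
      ∀ (k N : ℕ) (S : Finset ℕ) (h : ℕ → ℂ[X]), S.card ≤ k →
        (∀ j ∈ S, (h j).natDegree ≤ m ∧ j ≤ N) →
        (∑ j ∈ S, h j * P ^ j * Q ^ (N - j)) ≠ 0 →
        (∀ f : ℤ[X], f ≠ 0 → (f.map (Int.castRingHom ℂ)).roots.Nodup →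
          ∀ θ : ℝ, 0 < θ → θ ≤ 1 →
          θ * f.natDegree ≤ Set.ncard {z : ℂ | aeval z f = 0 ∧
            (∑ j ∈ S, h j * P ^ j * Q ^ (N - j)).eval z = 0} →
          (f.natDegree : ℝ) ≤ (Λ * k / θ) ^ (80 * m ^ 2) *
              (1 + (f.map (Int.castRingHom ℂ)).logMahlerMeasure) ∧
          (Irreducible f → 0 < (f.map (Int.castRingHom ℂ)).logMahlerMeasure →
            c / (m ^ 2 * Real.log (Λ * k / θ)) ^ 3 ≤
              (f.map (Int.castRingHom ℂ)).logMahlerMeasure)) ∧
        (∀ F : ℤ[X], 0 < (F.map (Int.castRingHom ℂ)).logMahlerMeasure →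
          (∀ z : ℂ, aeval z F = 0 → (∑ j ∈ S, h j * P ^ j * Q ^ (N - j)).eval z = 0) →
          c / (m ^ 2 * Real.log (Λ * k)) ^ 3 ≤
            (F.map (Int.castRingHom ℂ)).logMahlerMeasure) :=
  Pool.Agent.K3h71.SP.final

end Pool.Agent.Results.MP_7ab245_nt.FewDigits
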