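import Pool.Agent.K3h99.Leh2.Final2

/-!
# Lehmer's problem and the top coefficients

Let `m⁺(g)` be the mean of `log⁺ |g| = max (0, log |g|)` over the unit circle and `p_k(g)` the sum
of the `k`-th powers of the zeros of `g`. Let `f` be an integer polynomial with `M(f) > 1`, let `g`
and `h` be complex polynomials with leading coefficients of absolute value at least one, and let
`N = deg f + deg h`, `deg g ≤ N` and `1 ≤ L ≤ N`. Put

  `D = (N / L + B) (1 + m⁺(g) + m⁺(h))`,
  `B = (∑_{1 ≤ k < L} |p_k(f) + p_k(h) - p_k(g)| ^ 2 / k ^ 2) ^ (1/2)`.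

The result bounds `log M(f)` below by a positive decreasing function of `D`; for irreducible `f` it
is the function `c / D ^ 3`.

If `deg (f h - g) ≤ N - L`, that is if `f h` and `g` have the same top `L` coefficients, then
`B = 0` (Newton; `traceDist_top` below). For instance (`h = 1`) `g` may be the sum of the top `L`
terms of `f`; then `m⁺(g) ≤ log (|a_n| + ⋯ + |a_{n-L+1}|)`. So, for every `ε > 0`, Lehmer's
inequality holds for the polynomials whose top `ε n` coefficients have bounded sum of absolute
values, or agree with those of a rational function `g / h` with `g` and `h` of bounded length and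
of degree `O(n)`; the other coefficients are arbitrary.

Method. The main point is the inequality `m⁺(f) ≤ 300 D` for complex polynomials `f` with
`|lc f| ≥ 1` and `M(f) < 2`; then `LogPlusMean` (for irreducible `f`) and the compactness theorem for
integer polynomials with bounded `m⁺` are applied. Let `F`, `G` be the reversed polynomials of
`f h` and `g`, normalized by `F(0) = G(0) = 1`. In the coordinate `z = exp (-s + i θ)` write
`log |F| = U_F - g_F` with `U_F` harmonic in the disc and `g_F ≥ 0` the Green potential of the zeros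
of `F` in the disc. Let `[x]` be the smooth truncation of `x` at `± K s`, `K = L / 8`. The function
`W = U_F + Re P - [g_F] + [g_G] - [U_G]`, `P` a polynomial with
`z P' = ∑_{k < L} (p_k(f h) - p_k(g)) z ^ k`, equals `log |F| + Re P` on the unit circle and tends to a
constant at the origin. Green's formula bounds the area of the set where a truncation is active by
`C (1 + m(f h) + m⁺(g)) / K` and the energy of the truncated functions by
`C K (1 + m(f h) + m⁺(g))`. Where no truncation is active, the radial derivative of `W` is the real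
part of a function vanishing to order `L` at the origin, which is small by Kolmogorov's inequality
for `F'/F - G'/G` and the monotonicity of circle means.
-/

set_option autoImplicit false

open Polynomial

namespace Pool.Agent.Results.MP_7ab245_nt.TopCoefficients

/-- the mean of `log⁺ |g|` over the unit circle -/
noncomputable def mplus (g : ℂ[X]) : ℝ :=
  Real.circleAverage (fun z : ℂ => Real.posLog ‖g.eval z‖) 0 1

/-- the sum of the `k`-th powers of the zeros of `g`, counted with multiplicity -/
noncomputable def powerSum (g : ℂ[X]) (k : ℕ) : ℂ := (g.roots.map (fun a : ℂ => a ^ k)).sum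

/-- `B = (∑_{1 ≤ k < L} |p_k(f) + p_k(h) - p_k(g)| ^ 2 / k ^ 2) ^ (1/2)` -/
noncomputable def traceDist (f g h : ℂ[X]) (L : ℕ) : ℝ :=
  Real.sqrt (∑ k ∈ Finset.Ico 1 L, ‖powerSum f k + powerSum h k - powerSum g k‖ ^ 2 / (k : ℝ) ^ 2)

/-- `D = ((deg f + deg h) / L + B) (1 + m⁺(g) + m⁺(h))` -/
noncomputable def D (f : ℤ[X]) (g h : ℂ[X]) (L : ℕ) : ℝ :=
  (((f.natDegree : ℝ) + h.natDegree) / L + traceDist (f.map (Int.castRingHom ℂ)) g h L) *
    (1 + mplus g + mplus h)

/-- a positive sequence has a positive decreasing minorant -/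
lemma exists_antitone (b : ℕ → ℝ) (hb : ∀ m, 0 < b m) :
    ∃ a : ℕ → ℝ, (∀ m, 0 < a m) ∧ Antitone a ∧ ∀ m, a m ≤ b m := by
  refine ⟨fun m => Nat.rec (b 0) (fun k x => min x (b (k + 1))) m, ?_, ?_, ?_⟩
  · intro m
    induction m with
    | zero => exact hb 0
    | succ k ih => exact lt_min ih (hb (k + 1))
  · exact antitone_nat_of_succ_le fun m => min_le_left _ _
  · intro m
    cases m with
    | zero => exact le_rfl
    | succ k => exact min_le_right _ _

theorem result : ∃ (c : ℝ) (Λ : ℝ → ℝ), 0 < c ∧ (∀ x, 0 < Λ x) ∧ Antitone Λ ∧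
    ∀ f : ℤ[X], 1 < (f.map (Int.castRingHom ℂ)).mahlerMeasure →
    ∀ g h : ℂ[X], 1 ≤ ‖g.leadingCoeff‖ → 1 ≤ ‖h.leadingCoeff‖ →
    g.natDegree ≤ f.natDegree + h.natDegree →
    ∀ L : ℕ, 1 ≤ L → L ≤ f.natDegree + h.natDegree →
      Λ (D f g h L) ≤ Real.log (f.map (Int.castRingHom ℂ)).mahlerMeasure ∧
      (Irreducible f → c / D f g h L ^ 3 ≤ Real.log (f.map (Int.castRingHom ℂ)).mahlerMeasure) := by
  obtain ⟨c, hc0, hc⟩ := K3h99.Leh.irr_bound2
  choose μ hμ1 hμ using K3h99.Leh.red_bound2
  obtain ⟨a, ha0, ha, hle⟩ := exists_antitone (fun m : ℕ => Real.log (μ m))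
    (fun m => Real.log_pos (hμ1 m))
  refine ⟨c, fun x => a ⌈x⌉₊, hc0, fun x => ha0 _, fun x y h => ha (Nat.ceil_mono h), ?_⟩
  intro f hM g h hlg hlh hdg L hL hLn
  have hd : (K3h99.Leh.cx f).natDegree = f.natDegree :=
    natDegree_map_eq_of_injective (RingHom.injective_int (Int.castRingHom ℂ)) f
  have e : K3h99.Leh.sd (K3h99.Leh.cx f) g h L = D f g h L := by
    unfold K3h99.Leh.sd D
    rw [hd]
    rfl
  have hpos : 0 < (f.map (Int.castRingHom ℂ)).mahlerMeasure := by linarith
  constructor
  · have hf0 : f ≠ 0 := by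
      rintro rfl
      simp at hM
      linarith
    rcases hμ (⌈D f g h L⌉₊ : ℝ) f hf0 g h hlg hlh (by rw [hd]; exact hdg) L hL
      (by rw [hd]; exact hLn) (by rw [e]; exact Nat.le_ceil _) with h' | h'
    · exact absurd h' (ne_of_gt hM)
    · exact (hle _).trans (Real.log_le_log (by have := hμ1 (⌈D f g h L⌉₊ : ℝ); linarith) h')
  · intro hf
    have h' := hc f hf hM g h hlg hlh (by rw [hd]; exact hdg) L hL (by rw [hd]; exact hLn)
    rw [e] at h'
    rw [Real.le_log_iff_exp_le hpos]
    exact h'

/-- If `f h` and `g` have the same top `L` coefficients then `B = 0`. -/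
theorem traceDist_top (f g h : ℂ[X]) (hf : f ≠ 0) (hh : h ≠ 0) (L : ℕ) (hL : 1 ≤ L)
    (hLn : L ≤ f.natDegree + h.natDegree)
    (H : (f * h - g).natDegree ≤ f.natDegree + h.natDegree - L) : traceDist f g h L = 0 :=
  K3h99.Leh.Bt_top f g h hf hh hL hLn H

end Pool.Agent.Results.MP_7ab245_nt.TopCoefficients
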