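import Mathlib
import Pool.Agent.K3h58.ZD.Main

/-!
# Lehmer's problem and the discrepancy between the zeros of two integer polynomials

Let `f` be an irreducible integer polynomial with Mahler measure `M(f) > 1`, let `t ≥ 1`, and let `g`
be any integer polynomial that is not divisible by `f`. Let `N_f(x)` be the number of the nonzero
zeros of `f` with argument in `(-π, x)`, and suppose that `|t N_f(x) - N_g(x)| ≤ Δ` for all real
`x` (in particular the numbers of nonzero zeros of `f ^ t` and `g` differ by at most `Δ`). Then

  `log M(f) ≥ c / (1 + (Δ + log M(g)) / t) ^ 3`

with an absolute constant `c > 0`. So Lehmer's inequality `M(f) ≥ μ(D, B) > 1` holds for all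
irreducible `f` with `M(f) > 1` the zeros of which are shadowed, with discrepancy at most `D`, by
the zeros of some integer polynomial `g` not divisible by `f` with `M(g) ≤ B`, for instance by those
of an arbitrary product of cyclotomic polynomials; the degrees do not matter. Put differently, if `M(f)` is close
to `1` then the (multiples of the) zeros of `f` have a large discrepancy from the zeros of EVERY
integer polynomial of bounded Mahler measure that is not a multiple of `f`.

Method. By the starting file `CoprimePairs` it suffices to bound the height of the pair `(f ^ t, g)`,
the mean of `log max (|f| ^ t, |g|)` over the unit circle. (1) The zeros are reflected into the closed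
unit disc and moved radially to the unit circle; this changes the mean of the absolute value of the
logarithm of `|f| ^ t / |g|` by at most a multiple of `t log M(f) + log M(g)`. (2) For zeros on the
circle the quotient `h` is a holomorphic function without zeros in the disc, and the condition on the
zeros says that a branch of its argument is bounded by `2 π Δ`: for fixed `z` in the disc the function
`x ↦ arg (1 - e ^ (-i x) z) + x / 2` is monotone. So `h ^ p`, `p = 1 / (6 Δ)`, has values in a sector,
`|h ^ p| ≤ 2 Re h ^ p`, and the mean value property and Fatou's lemma bound the mean of `|h| ^ p`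
and hence that of `log⁺ |h|` by `12 Δ`.
-/

set_option autoImplicit false

open Polynomial

namespace Pool.Agent.Results.MP_7ab245_nt.ZeroDiscrepancy

noncomputable section

/-- The number of the nonzero complex zeros `w` of the integer polynomial `f`, counted with
multiplicity, whose argument (in `(-π, π]`) is less than `x`. -/
def zerosBelow (f : ℤ[X]) (x : ℝ) : ℕ :=
  ((f.map (Int.castRingHom ℂ)).roots.filter fun w => w ≠ 0 ∧ w.arg < x).card

theorem result : ∃ c : ℝ, 0 < c ∧ ∀ (f g : ℤ[X]) (t : ℕ) (Δ : ℝ), 0 < t → Irreducible f →
    1 < (f.map (Int.castRingHom ℂ)).mahlerMeasure → ¬ f ∣ g →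
    (∀ x : ℝ, |(t : ℝ) * zerosBelow f x - zerosBelow g x| ≤ Δ) →
    c / (1 + (Δ + Real.log (g.map (Int.castRingHom ℂ)).mahlerMeasure) / t) ^ 3 ≤
      Real.log (f.map (Int.castRingHom ℂ)).mahlerMeasure :=
  Pool.Agent.K3h58.ZD.main

end

end Pool.Agent.Results.MP_7ab245_nt.ZeroDiscrepancy
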